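import Pool.Agent.H97.NR.Stmts

/-!
Two-dimensional algebras over `ZMod p`: change of basis.
-/

set_option linter.unusedVariables false

namespace Pool.NR.E3

variable {p : ℕ}

lemma refl3c (B : Fin 2 → Fin 2 → Fin 2 → ZMod p) [Fact p.Prime] : Eq3c B B := by
  refine ⟨1, by simp, ?_⟩
  intro i j l
  fin_cases i <;> fin_cases j <;> fin_cases l <;> simp [Matrix.one_apply]

lemma trans3c [Fact p.Prime] {B B' B'' : Fin 2 → Fin 2 → Fin 2 → ZMod p} (h1 : Eq3c B B')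
    (h2 : Eq3c B' B'') : Eq3c B B'' := by
  obtain ⟨g, hg, h1⟩ := h1
  obtain ⟨g', hg', h2⟩ := h2
  refine ⟨g * g', by rw [Matrix.det_mul]; exact mul_ne_zero hg hg', ?_⟩
  intro i j l
  simp only [Fin.sum_univ_two, Matrix.mul_apply] at *
  have a0 := h2 i j 0
  have a1 := h2 i j 1
  have b00 := h1 0 0 l
  have b01 := h1 0 1 l
  have b10 := h1 1 0 l
  have b11 := h1 1 1 l
  linear_combination g l 0 * a0 + g l 1 * a1 + g' 0 i * g' 0 j * b00 + g' 0 i * g' 1 j * b01 +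
    g' 1 i * g' 0 j * b10 + g' 1 i * g' 1 j * b11

/-- the table in the basis `(x0, y0)`, `(x1, y1)` -/
def act (x0 x1 y0 y1 : ZMod p) (B : Fin 2 → Fin 2 → Fin 2 → ZMod p) :
    Fin 2 → Fin 2 → Fin 2 → ZMod p := fun k i j =>
  (x0 * y1 - x1 * y0)⁻¹ * ((![y1, -y0] : Fin 2 → ZMod p) k *
      (∑ a, ∑ b, (!![x0, x1; y0, y1] : Matrix (Fin 2) (Fin 2) (ZMod p)) a i *
        (!![x0, x1; y0, y1] : Matrix (Fin 2) (Fin 2) (ZMod p)) b j * B 0 a b) +
    (![-x1, x0] : Fin 2 → ZMod p) k *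
      (∑ a, ∑ b, (!![x0, x1; y0, y1] : Matrix (Fin 2) (Fin 2) (ZMod p)) a i *
        (!![x0, x1; y0, y1] : Matrix (Fin 2) (Fin 2) (ZMod p)) b j * B 1 a b))

lemma eq3c_act [Fact p.Prime] (x0 x1 y0 y1 : ZMod p) (B : Fin 2 → Fin 2 → Fin 2 → ZMod p)
    (h : x0 * y1 - x1 * y0 ≠ 0) : Eq3c B (act x0 x1 y0 y1 B) := by
  refine ⟨!![x0, x1; y0, y1], by rw [Matrix.det_fin_two_of]; exact h, ?_⟩
  intro i j l
  unfold act
  have key : ∀ s0 s1 : ZMod p, (∑ k, (!![x0, x1; y0, y1] : Matrix (Fin 2) (Fin 2) (ZMod p)) 0 k *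
      ((x0 * y1 - x1 * y0)⁻¹ * ((![y1, -y0] : Fin 2 → ZMod p) k * s0 +
        (![-x1, x0] : Fin 2 → ZMod p) k * s1)) = s0) ∧
      (∑ k, (!![x0, x1; y0, y1] : Matrix (Fin 2) (Fin 2) (ZMod p)) 1 k *
      ((x0 * y1 - x1 * y0)⁻¹ * ((![y1, -y0] : Fin 2 → ZMod p) k * s0 +
        (![-x1, x0] : Fin 2 → ZMod p) k * s1)) = s1) := by
    intro s0 s1
    have hi := inv_mul_cancel₀ h
    constructor
    · simp [Fin.sum_univ_two]
      linear_combination s0 * hi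
    · simp [Fin.sum_univ_two]
      linear_combination s1 * hi
  fin_cases l
  · exact (key _ _).1
  · exact (key _ _).2

/-- traces in the new basis -/
lemma tr1_act [Fact p.Prime] (x0 x1 y0 y1 : ZMod p) (B : Fin 2 → Fin 2 → Fin 2 → ZMod p)
    (h : x0 * y1 - x1 * y0 ≠ 0) :
    tr1 (act x0 x1 y0 y1 B) 0 = x0 * tr1 B 0 + y0 * tr1 B 1 ∧
    tr1 (act x0 x1 y0 y1 B) 1 = x1 * tr1 B 0 + y1 * tr1 B 1 := by
  constructor
  · simp [tr1, act, Fin.sum_univ_two]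
    field_simp
    ring
  · simp [tr1, act, Fin.sum_univ_two]
    field_simp
    ring

lemma tr2_act [Fact p.Prime] (x0 x1 y0 y1 : ZMod p) (B : Fin 2 → Fin 2 → Fin 2 → ZMod p)
    (h : x0 * y1 - x1 * y0 ≠ 0) :
    tr2 (act x0 x1 y0 y1 B) 0 = x0 * tr2 B 0 + y0 * tr2 B 1 ∧
    tr2 (act x0 x1 y0 y1 B) 1 = x1 * tr2 B 0 + y1 * tr2 B 1 := by
  constructor
  · simp [tr2, act, Fin.sum_univ_two]
    field_simp
    ring
  · simp [tr2, act, Fin.sum_univ_two]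
    field_simp
    ring

/-- the shape `T3c` from the traces -/
lemma shape (B : Fin 2 → Fin 2 → Fin 2 → ZMod p) (α β : ZMod p) (h1 : tr1 B 0 = α)
    (h2 : tr1 B 1 = 0) (h3 : tr2 B 0 = β) (h4 : tr2 B 1 = 0) :
    B = T3c α β (B 0 0 0) (B 0 1 1) (B 1 0 0) (B 1 1 1) := by
  unfold tr1 at h1 h2
  unfold tr2 at h3 h4
  funext i j k
  fin_cases i <;> fin_cases j <;> fin_cases k <;> simp [T3c, T22]
  · linear_combination h4
  · linear_combination h2
  · linear_combination h1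
  · linear_combination h3

/-- change of basis `e0 + k e1`, `t e1` -/
lemma step [Fact p.Prime] (α β a c d e k t : ZMod p) (ht : t ≠ 0) :
    Eq3c (T3c α β a c d e) (T3c α β (a - 2 * k * e + k ^ 2 * c) (t ^ 2 * c)
      ((d + k * (α + β - 3 * a) + 3 * k ^ 2 * e - k ^ 3 * c) / t) (t * (e - k * c))) := by
  refine ⟨!![1, 0; k, t], by rw [Matrix.det_fin_two_of]; simpa using ht, ?_⟩
  intro i j l
  fin_cases i <;> fin_cases j <;> fin_cases l <;> simp [T3c, T22, Fin.sum_univ_two] <;>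
    (try field_simp) <;> (try ring_nf) <;> (try simp)

/-- change of basis `s e0`, `e1` (traces zero) -/
lemma scale0 [Fact p.Prime] (a c d e s : ZMod p) (hs : s ≠ 0) :
    Eq3c (T3c 0 0 a c d e) (T3c 0 0 (s * a) (c / s) (s ^ 2 * d) e) := by
  refine ⟨!![s, 0; 0, 1], by rw [Matrix.det_fin_two_of]; simpa using hs, ?_⟩
  intro i j l
  fin_cases i <;> fin_cases j <;> fin_cases l <;> simp [T3c, T22, Fin.sum_univ_two] <;>
    (try field_simp) <;> (try ring_nf) <;> (try simp)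

/-- swap -/
lemma swap [Fact p.Prime] (a c d e : ZMod p) :
    Eq3c (T3c 0 0 a c d e) (T3c 0 0 e d c a) := by
  refine ⟨!![0, 1; 1, 0], by rw [Matrix.det_fin_two_of]; simp, ?_⟩
  intro i j l
  fin_cases i <;> fin_cases j <;> fin_cases l <;> simp [T3c, T22, Fin.sum_univ_two]

end Pool.NR.E3
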