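import Pool.Agent.H85.NR.E3Base

set_option linter.unusedVariables false

namespace Pool.NR

theorem e3g : E3GStmt := by
  intro p hp B h
  set Δ := tr1 B 0 * tr2 B 1 - tr1 B 1 * tr2 B 0 with hΔ
  have hΔ0 : Δ ≠ 0 := sub_ne_zero.mpr h
  have hdet : (tr2 B 1 / Δ) * (tr1 B 0 / Δ) - (- tr1 B 1 / Δ) * (- tr2 B 0 / Δ) ≠ 0 := by
    have e : (tr2 B 1 / Δ) * (tr1 B 0 / Δ) - (- tr1 B 1 / Δ) * (- tr2 B 0 / Δ) = 1 / Δ := by
      field_simp
      rw [hΔ]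
      ring
    rw [e]
    exact one_div_ne_zero hΔ0
  set B' := E3.act (tr2 B 1 / Δ) (- tr1 B 1 / Δ) (- tr2 B 0 / Δ) (tr1 B 0 / Δ) B with hB'
  have h1 := E3.tr1_act (tr2 B 1 / Δ) (- tr1 B 1 / Δ) (- tr2 B 0 / Δ) (tr1 B 0 / Δ) B hdet
  have h2 := E3.tr2_act (tr2 B 1 / Δ) (- tr1 B 1 / Δ) (- tr2 B 0 / Δ) (tr1 B 0 / Δ) B hdet
  rw [← hB'] at h1 h2
  have a1 : tr1 B' 0 = 1 := by
    rw [h1.1]; field_simp; rw [hΔ]; ring
  have a2 : tr1 B' 1 = 0 := by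
    rw [h1.2]; field_simp; ring
  have a3 : tr2 B' 0 = 0 := by
    rw [h2.1]; field_simp; ring
  have a4 : tr2 B' 1 = 1 := by
    rw [h2.2]; field_simp; rw [hΔ]; ring
  refine ⟨B', ?_, E3.eq3c_act _ _ _ _ B hdet⟩
  have e : B' = T22 (B' 0 0 0) (1 - B' 1 1 1) (- B' 1 1 1) (B' 0 1 1) (B' 1 0 0) (1 - B' 0 0 0)
      (- B' 0 0 0) (B' 1 1 1) := by
    unfold tr1 at a1 a2
    unfold tr2 at a3 a4
    clear_value B'
    funext i j k
    fin_cases i <;> fin_cases j <;> fin_cases k <;> simp [T22]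
    · linear_combination a4
    · linear_combination a2
    · linear_combination a1
    · linear_combination a3
  rw [e]
  exact NF3cG.g _ _ _ _

end Pool.NR
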