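import Pool.Agent.H85.NR.E3Base

set_option linter.unusedVariables false

namespace Pool.NR

namespace E3

lemma tr_T3c {p : ℕ} (a c d e : ZMod p) : tr1 (T3c 0 0 a c d e) 0 = 0 ∧ tr1 (T3c 0 0 a c d e) 1 = 0 ∧
    tr2 (T3c 0 0 a c d e) 0 = 0 ∧ tr2 (T3c 0 0 a c d e) 1 = 0 := by
  refine ⟨?_, ?_, ?_, ?_⟩ <;> simp [tr1, tr2, T3c, T22]

end E3

theorem e3s : E3SStmt := by
  intro p hp a c d e x y hxy hf
  have main : ∀ x0 y0 : ZMod p, x0 * y - x * y0 ≠ 0 →
      ∃ a' d' e' : ZMod p, Eq3c (T3c 0 0 a c d e) (T3c 0 0 a' 0 d' e') := by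
    intro x0 y0 hdet
    set B' := E3.act x0 x y0 y (T3c 0 0 a c d e) with hB'
    have g1 := E3.tr1_act x0 x y0 y (T3c 0 0 a c d e) hdet
    have g2 := E3.tr2_act x0 x y0 y (T3c 0 0 a c d e) hdet
    obtain ⟨t1, t2, t3, t4⟩ := E3.tr_T3c a c d e
    rw [← hB', t1, t2] at g1
    rw [← hB', t3, t4] at g2
    have hc : B' 0 1 1 = 0 := by
      rw [hB']
      simp [E3.act, T3c, T22, Fin.sum_univ_two]
      right
      linear_combination hf
    have sh := E3.shape B' 0 0 (by rw [g1.1]; ring) (by rw [g1.2]; ring) (by rw [g2.1]; ring)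
      (by rw [g2.2]; ring)
    rw [hc] at sh
    refine ⟨B' 0 0 0, B' 1 0 0, B' 1 1 1, ?_⟩
    rw [← sh]
    exact E3.eq3c_act _ _ _ _ _ hdet
  rcases eq_or_ne y 0 with h | h
  · have hx : x ≠ 0 := by
      rcases hxy with h' | h'
      · exact h'
      · exact absurd h h'
    apply main 0 1
    rw [h]
    simpa using hx
  · apply main 1 0
    simpa using h

end Pool.NR
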