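import Pool.Agent.H85.NR.E3L
import Pool.Agent.H85.NR.E3S

set_option linter.unusedVariables false

namespace Pool.NR

namespace E3

open Polynomial

variable {p : ℕ}

/-- the cubic polynomial `X ^ 3 + 3 a X - d` -/
noncomputable def cub (a d : ZMod p) : (ZMod p)[X] := X ^ 3 + C (3 * a) * X - C d

lemma cub_monic [Fact p.Prime] (a d : ZMod p) : (cub a d).Monic := by
  unfold cub
  monicity!

lemma cub_deg [Fact p.Prime] (a d : ZMod p) : (cub a d).natDegree = 3 := by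
  unfold cub
  compute_degree!

lemma cub_irr [Fact p.Prime] (a d : ZMod p) (h : ∀ t : ZMod p, t ^ 3 + 3 * a * t - d ≠ 0) :
    Irreducible (cub a d) := by
  apply irreducible_of_degree_le_three_of_not_isRoot
  · rw [cub_deg]; decide
  · intro x hx
    apply h x
    have : eval x (cub a d) = 0 := hx
    unfold cub at this
    simp at this
    linear_combination this

/-- a cubic extension containing a root -/
lemma ext_exists [hp : Fact p.Prime] (a d : ZMod p) (h : ∀ t : ZMod p, t ^ 3 + 3 * a * t - d ≠ 0) :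
    ∃ (K : Type) (_ : Field K) (_ : Algebra (ZMod p) K) (θ : K), Finite K ∧
      Module.Finite (ZMod p) K ∧ Module.finrank (ZMod p) K = 3 ∧
      θ ^ 3 + algebraMap (ZMod p) K (3 * a) * θ - algebraMap (ZMod p) K d = 0 ∧
      ∀ u v w : ZMod p, algebraMap (ZMod p) K u + algebraMap (ZMod p) K v * θ +
        algebraMap (ZMod p) K w * θ ^ 2 = 0 → u = 0 ∧ v = 0 ∧ w = 0 := by
  have : Fact (Irreducible (cub a d)) := ⟨cub_irr a d h⟩
  have hne : cub a d ≠ 0 := (cub_monic a d).ne_zero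
  let pb := AdjoinRoot.powerBasis hne
  have hfr : Module.finrank (ZMod p) (AdjoinRoot (cub a d)) = 3 := by
    rw [pb.finrank, AdjoinRoot.powerBasis_dim, cub_deg]
  have hmf : Module.Finite (ZMod p) (AdjoinRoot (cub a d)) := pb.finite
  have hfin : Finite (AdjoinRoot (cub a d)) := Module.finite_of_finite (ZMod p)
  refine ⟨AdjoinRoot (cub a d), inferInstance, inferInstance, AdjoinRoot.root (cub a d), hfin,
    hmf, hfr, ?_, ?_⟩
  · have h1 : aeval (AdjoinRoot.root (cub a d)) (cub a d) = 0 := by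
      rw [AdjoinRoot.aeval_eq, AdjoinRoot.mk_self]
    have h2 : aeval (AdjoinRoot.root (cub a d)) (X ^ 3 + C (3 * a) * X - C d : (ZMod p)[X]) = 0 := h1
    rw [map_sub, map_add, map_mul, map_pow, aeval_X, aeval_C, aeval_C] at h2
    exact h2
  · intro u v w huvw
    have h1 : aeval (AdjoinRoot.root (cub a d)) (C u + C v * X + C w * X ^ 2 : (ZMod p)[X]) = 0 := by
      rw [map_add, map_add, map_mul, map_mul, map_pow, aeval_X, aeval_C, aeval_C, aeval_C]
      exact huvw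
    rw [AdjoinRoot.aeval_eq, AdjoinRoot.mk_eq_zero] at h1
    have h2 : (C u + C v * X + C w * X ^ 2 : (ZMod p)[X]) = 0 := by
      by_contra hcon
      have h3 := natDegree_le_of_dvd h1 hcon
      rw [cub_deg] at h3
      have h4 : (C u + C v * X + C w * X ^ 2 : (ZMod p)[X]).natDegree ≤ 2 := by
        compute_degree
      omega
    have c0 := congrArg (fun q : (ZMod p)[X] => q.coeff 0) h2
    have c1 := congrArg (fun q : (ZMod p)[X] => q.coeff 1) h2
    have c2 := congrArg (fun q : (ZMod p)[X] => q.coeff 2) h2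
    simp [coeff_X, coeff_C, coeff_X_pow] at c0 c1 c2
    exact ⟨c0, c1, c2⟩

/-- two cubic polynomials have roots in a common cubic extension -/
lemma two_roots [hp : Fact p.Prime] (a d a0 d0 : ZMod p) (h : ∀ t : ZMod p, t ^ 3 + 3 * a * t - d ≠ 0)
    (h0 : ∀ t : ZMod p, t ^ 3 + 3 * a0 * t - d0 ≠ 0) :
    ∃ (K : Type) (_ : Field K) (_ : Algebra (ZMod p) K) (θ η : K),
      Module.Finite (ZMod p) K ∧ Module.finrank (ZMod p) K = 3 ∧
      θ ^ 3 + algebraMap (ZMod p) K (3 * a) * θ - algebraMap (ZMod p) K d = 0 ∧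
      η ^ 3 + algebraMap (ZMod p) K (3 * a0) * η - algebraMap (ZMod p) K d0 = 0 ∧
      ∀ u v w : ZMod p, algebraMap (ZMod p) K u + algebraMap (ZMod p) K v * η +
        algebraMap (ZMod p) K w * η ^ 2 = 0 → u = 0 ∧ v = 0 ∧ w = 0 := by
  obtain ⟨K, _, _, θ, hf, hm, hr, hθ, -⟩ := ext_exists a d h
  obtain ⟨K', _, _, η', hf', hm', hr', hη', hq⟩ := ext_exists a0 d0 h0
  have := Fintype.ofFinite K
  have := Fintype.ofFinite K'
  have hc : Fintype.card K' = Fintype.card K := by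
    rw [← FiniteField.pow_finrank_eq_card p K, ← FiniteField.pow_finrank_eq_card p K', hr, hr']
  let σ := FiniteField.algEquivOfCardEq p hc
  refine ⟨K, inferInstance, inferInstance, θ, σ η', hm, hr, hθ, ?_, ?_⟩
  · have h1 := congrArg σ hη'
    rw [map_sub, map_add, map_mul, map_pow, AlgEquiv.commutes, AlgEquiv.commutes, map_zero] at h1
    exact h1
  · intro u v w huvw
    apply hq
    apply σ.injective
    rw [map_add, map_add, map_mul, map_mul, map_pow, AlgEquiv.commutes, AlgEquiv.commutes,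
      AlgEquiv.commutes, map_zero]
    exact huvw

/-- the Moebius transformation -/
lemma moebius [hp : Fact p.Prime] (a d a0 d0 : ZMod p) (h : ∀ t : ZMod p, t ^ 3 + 3 * a * t - d ≠ 0)
    (h0 : ∀ t : ZMod p, t ^ 3 + 3 * a0 * t - d0 ≠ 0) :
    ∃ α β γ δ : ZMod p, ¬ (α = 0 ∧ β = 0 ∧ γ = 0 ∧ δ = 0) ∧
      3 * α ^ 2 * β + 3 * a * (γ ^ 2 * β + 2 * γ * δ * α) - 3 * d * γ ^ 2 * δ = 0 ∧
      3 * α * β ^ 2 + 3 * a * (2 * γ * δ * β + δ ^ 2 * α) - 3 * d * γ * δ ^ 2 =
        3 * a0 * (α ^ 3 + 3 * a * γ ^ 2 * α - d * γ ^ 3) ∧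
      β ^ 3 + 3 * a * δ ^ 2 * β - d * δ ^ 3 =
        - d0 * (α ^ 3 + 3 * a * γ ^ 2 * α - d * γ ^ 3) := by
  obtain ⟨K, _, _, θ, η, hm, hr, hθ, hη, hq⟩ := two_roots a d a0 d0 h h0
  have hli : ¬ LinearIndependent (ZMod p) (![1, η, θ, θ * η] : Fin 4 → K) := by
    intro hcon
    have := hcon.fintype_card_le_finrank
    rw [hr, Fintype.card_fin] at this
    omega
  rw [Fintype.not_linearIndependent_iff] at hli
  obtain ⟨g, hg, i, hi⟩ := hli
  simp only [Fin.sum_univ_four, Matrix.cons_val_zero, Matrix.cons_val_one, Algebra.smul_def,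
    Matrix.cons_val] at hg
  set φ := algebraMap (ZMod p) K with hφ
  -- `θ (γ η + δ) = α η + β`
  refine ⟨- g 1, - g 0, g 3, g 2, ?_, ?_⟩
  · rintro ⟨e1, e0, e3, e2⟩
    apply hi
    fin_cases i
    · exact neg_eq_zero.mp e0
    · exact neg_eq_zero.mp e1
    · exact e2
    · exact e3
  · generalize hα : - g 1 = α
    generalize hβ : - g 0 = β
    generalize hγ : g 3 = γ at *
    generalize hδ : g 2 = δ at *
    have hrel : θ * (φ γ * η + φ δ) = φ α * η + φ β := by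
      rw [← hα, ← hβ, map_neg, map_neg]
      linear_combination hg
    have hcub : (φ α * η + φ β) ^ 3 + φ (3 * a) * (φ γ * η + φ δ) ^ 2 * (φ α * η + φ β) -
        φ d * (φ γ * η + φ δ) ^ 3 = 0 := by
      rw [← hrel]
      linear_combination (φ γ * η + φ δ) ^ 3 * hθ
    have hfin := hq
      ((β ^ 3 + 3 * a * δ ^ 2 * β - d * δ ^ 3) + d0 * (α ^ 3 + 3 * a * γ ^ 2 * α - d * γ ^ 3))
      ((3 * α * β ^ 2 + 3 * a * (2 * γ * δ * β + δ ^ 2 * α) - 3 * d * γ * δ ^ 2) -
        3 * a0 * (α ^ 3 + 3 * a * γ ^ 2 * α - d * γ ^ 3))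
      (3 * α ^ 2 * β + 3 * a * (γ ^ 2 * β + 2 * γ * δ * α) - 3 * d * γ ^ 2 * δ)
      (by
        simp only [map_add, map_sub, map_mul, map_pow, map_ofNat] at hcub hη ⊢
        linear_combination hcub - (φ α ^ 3 + 3 * φ a * φ γ ^ 2 * φ α - φ d * φ γ ^ 3) * hη)
    obtain ⟨r1, r2, r3⟩ := hfin
    refine ⟨r3, ?_, ?_⟩
    · linear_combination r2
    · linear_combination r1

/-- no root: no zero of the binary form -/
lemma no_zero [hp : Fact p.Prime] (a d : ZMod p) (h : ∀ t : ZMod p, t ^ 3 + 3 * a * t - d ≠ 0)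
    (x y : ZMod p) (hxy : y ^ 3 + 3 * a * x ^ 2 * y - d * x ^ 3 = 0) : x = 0 ∧ y = 0 := by
  rcases eq_or_ne x 0 with hx | hx
  · refine ⟨hx, ?_⟩
    rw [hx] at hxy
    have : y ^ 3 = 0 := by linear_combination hxy
    exact pow_eq_zero_iff (by norm_num) |>.mp this
  · exfalso
    apply h (y / x)
    field_simp
    linear_combination hxy

/-- all irreducible cubic forms are equivalent -/
lemma equiv_cub [hp : Fact p.Prime] (hp3 : p ≠ 3) (a d a0 d0 : ZMod p)
    (h : ∀ t : ZMod p, t ^ 3 + 3 * a * t - d ≠ 0) (h0 : ∀ t : ZMod p, t ^ 3 + 3 * a0 * t - d0 ≠ 0) :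
    Eq3c (T3c 0 0 a 1 d 0) (T3c 0 0 a0 1 d0 0) := by
  have t3 := three_ne hp3
  obtain ⟨α, β, γ, δ, hne, r2, r1, r0⟩ := moebius a d a0 d0 h h0
  set κ := α ^ 3 + 3 * a * γ ^ 2 * α - d * γ ^ 3 with hκ
  -- the form identity
  have form : ∀ x y : ZMod p, (α * y + β * x) ^ 3 + 3 * a * (γ * y + δ * x) ^ 2 * (α * y + β * x) -
      d * (γ * y + δ * x) ^ 3 = κ * (y ^ 3 + 3 * a0 * x ^ 2 * y - d0 * x ^ 3) := by
    intro x y
    linear_combination y ^ 3 * (- hκ) + (x * y ^ 2) * r2 + (x ^ 2 * y) * r1 + x ^ 3 * r0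
  have hdet : δ * α - γ * β ≠ 0 := by
    intro hD
    have z : ∀ x y : ZMod p, γ * y + δ * x = 0 → α * y + β * x = 0 → κ ≠ 0 → x = 0 ∧ y = 0 := by
      intro x y h1 h2 hk
      have h3 := form x y
      rw [h1, h2] at h3
      have h4 : κ * (y ^ 3 + 3 * a0 * x ^ 2 * y - d0 * x ^ 3) = 0 := by linear_combination -h3
      rcases mul_eq_zero.mp h4 with h5 | h5
      · exact absurd h5 hk
      · exact no_zero a0 d0 h0 x y h5
    have hk : κ ≠ 0 := by
      intro hk
      have w : ∀ x y : ZMod p, γ * y + δ * x = 0 ∧ α * y + β * x = 0 := by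
        intro x y
        have h3 := form x y
        rw [hk, zero_mul] at h3
        exact no_zero a d h _ _ (by linear_combination h3)
      have w1 := w 0 1
      have w2 := w 1 0
      simp only [mul_one, mul_zero, add_zero, zero_add] at w1 w2
      exact hne ⟨w1.2, w2.2, w1.1, w2.1⟩
    have z1 := z γ (- δ) (by ring) (by linear_combination -hD) hk
    have z2 := z α (- β) (by linear_combination hD) (by ring) hk
    exact hne ⟨z2.1, neg_eq_zero.mp z2.2, z1.1, neg_eq_zero.mp z1.2⟩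
  have hk : κ ≠ 0 := by
    intro hk
    have w1 := form 0 1
    rw [hk, zero_mul] at w1
    have w2 := no_zero a d h (γ * 1 + δ * 0) (α * 1 + β * 0) (by linear_combination w1)
    have w3 := form 1 0
    rw [hk, zero_mul] at w3
    have w4 := no_zero a d h (γ * 0 + δ * 1) (α * 0 + β * 1) (by linear_combination w3)
    simp only [mul_one, mul_zero, add_zero, zero_add] at w2 w4
    exact hne ⟨w2.2, w4.2, w2.1, w4.1⟩
  set M := δ * α - γ * β with hM
  set s := M / κ with hs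
  have hs0 : s ≠ 0 := div_ne_zero hdet hk
  have hΔ : (s * δ) * (s * α) - (s * γ) * (s * β) = s ^ 2 * M := by rw [hM]; ring
  have hΔ0 : (s * δ) * (s * α) - (s * γ) * (s * β) ≠ 0 := by
    rw [hΔ]
    exact mul_ne_zero (pow_ne_zero 2 hs0) hdet
  set B' := act (s * δ) (s * γ) (s * β) (s * α) (T3c 0 0 a 1 d 0) with hB'
  have g1 := tr1_act (s * δ) (s * γ) (s * β) (s * α) (T3c 0 0 a 1 d 0) hΔ0
  have g2 := tr2_act (s * δ) (s * γ) (s * β) (s * α) (T3c 0 0 a 1 d 0) hΔ0
  obtain ⟨t1, t2, t3', t4⟩ := tr_T3c a 1 d 0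
  rw [← hB', t1, t2] at g1
  rw [← hB', t3', t4] at g2
  have sh := shape B' 0 0 (by rw [g1.1]; ring) (by rw [g1.2]; ring) (by rw [g2.1]; ring)
    (by rw [g2.2]; ring)
  have hsk : s * κ = M := by rw [hs]; field_simp
  -- entries
  have b000 : (s ^ 2 * M) * B' 0 0 0 = (s * α) * (a * (s * δ) ^ 2 + (s * β) ^ 2) -
      (s * γ) * (d * (s * δ) ^ 2 - 2 * a * (s * δ) * (s * β)) := by
    rw [hB']
    unfold act
    rw [hΔ]
    have : s ^ 2 * M ≠ 0 := mul_ne_zero (pow_ne_zero 2 hs0) hdet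
    simp [T3c, T22, Fin.sum_univ_two]
    field_simp
    ring
  have b011 : (s ^ 2 * M) * B' 0 1 1 = (s * α) * (a * (s * γ) ^ 2 + (s * α) ^ 2) -
      (s * γ) * (d * (s * γ) ^ 2 - 2 * a * (s * γ) * (s * α)) := by
    rw [hB']
    unfold act
    rw [hΔ]
    have : s ^ 2 * M ≠ 0 := mul_ne_zero (pow_ne_zero 2 hs0) hdet
    simp [T3c, T22, Fin.sum_univ_two]
    field_simp
    ring
  have b100 : (s ^ 2 * M) * B' 1 0 0 = - (s * β) * (a * (s * δ) ^ 2 + (s * β) ^ 2) +
      (s * δ) * (d * (s * δ) ^ 2 - 2 * a * (s * δ) * (s * β)) := by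
    rw [hB']
    unfold act
    rw [hΔ]
    have : s ^ 2 * M ≠ 0 := mul_ne_zero (pow_ne_zero 2 hs0) hdet
    simp [T3c, T22, Fin.sum_univ_two]
    field_simp
    ring
  have b111 : (s ^ 2 * M) * B' 1 1 1 = - (s * β) * (a * (s * γ) ^ 2 + (s * α) ^ 2) +
      (s * δ) * (d * (s * γ) ^ 2 - 2 * a * (s * γ) * (s * α)) := by
    rw [hB']
    unfold act
    rw [hΔ]
    have : s ^ 2 * M ≠ 0 := mul_ne_zero (pow_ne_zero 2 hs0) hdet
    simp [T3c, T22, Fin.sum_univ_two]
    field_simp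
    ring
  have hsM : s ^ 2 * M ≠ 0 := mul_ne_zero (pow_ne_zero 2 hs0) hdet
  have e000 : B' 0 0 0 = a0 := by
    apply mul_left_cancel₀ hsM
    apply mul_left_cancel₀ t3
    rw [b000, ← hsk]
    linear_combination s ^ 3 * r1
  have e011 : B' 0 1 1 = 1 := by
    apply mul_left_cancel₀ hsM
    rw [b011, ← hsk, hκ]
    ring
  have e100 : B' 1 0 0 = d0 := by
    apply mul_left_cancel₀ hsM
    rw [b100, ← hsk]
    linear_combination - s ^ 3 * r0
  have e111 : B' 1 1 1 = 0 := by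
    apply mul_left_cancel₀ hsM
    apply mul_left_cancel₀ t3
    rw [b111]
    linear_combination - s ^ 3 * r2
  rw [e000, e011, e100, e111] at sh
  rw [← sh]
  exact eq3c_act _ _ _ _ _ hΔ0

end E3

theorem e3i (hCRE : CREStmt) : E3IStmt := by
  intro p hp a c d e hf
  have hc : c ≠ 0 := by
    intro hc
    have := hf 0 1 (by rw [hc]; ring)
    exact one_ne_zero this.2
  set a1 := c * (a - 2 * (e / c) * e + (e / c) ^ 2 * c) with ha1
  set d1 := c ^ 2 * (d + e / c * (0 + 0 - 3 * a) + 3 * (e / c) ^ 2 * e - (e / c) ^ 3 * c) with hd1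
  have h1 : Eq3c (T3c 0 0 a c d e) (T3c 0 0 a1 1 d1 0) := by
    have s1 := E3.step 0 0 a c d e (e / c) 1 one_ne_zero
    have e0 : 1 * (e - e / c * c) = 0 := by field_simp; ring
    have e1 : (1 : ZMod p) ^ 2 * c = c := by ring
    rw [e0, e1, div_one] at s1
    have s2 := E3.scale0 (a - 2 * (e / c) * e + (e / c) ^ 2 * c) c
      (d + e / c * (0 + 0 - 3 * a) + 3 * (e / c) ^ 2 * e - (e / c) ^ 3 * c) 0 c hc
    rw [div_self hc] at s2
    exact E3.trans3c s1 s2
  have hno : ∀ t : ZMod p, t ^ 3 + 3 * a1 * t - d1 ≠ 0 := by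
    intro t ht
    apply hc
    apply (hf c (t + e) _).1
    have e1 : - d * c ^ 3 + 3 * a * c ^ 2 * (t + e) - 3 * e * c * (t + e) ^ 2 + c * (t + e) ^ 3 =
        c * (t ^ 3 + 3 * a1 * t - d1) := by
      rw [ha1, hd1]
      field_simp
      ring
    rw [e1, ht, mul_zero]
  have hp3 : p ≠ 3 := by
    intro h3
    subst h3
    apply hno d1
    have e1 : d1 ^ 3 = d1 := ZMod.pow_card d1
    have e2 : (3 : ZMod 3) = 0 := rfl
    rw [e1, e2]
    ring
  obtain ⟨a0, d0, hrep, -⟩ := hCRE p hp3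
  exact ⟨_, NF3cZ.z5 a0 d0 hp3 hrep, E3.trans3c h1 (E3.equiv_cub hp3 a1 d1 a0 d0 hno hrep.1)⟩

end Pool.NR
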