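import Pool.Agent.H85.NR.E3Base

set_option linter.unusedVariables false

namespace Pool.NR

namespace E3

/-- a basis adapted to a nonzero functional `(T0, T1)` -/
lemma basis {p : ℕ} [Fact (Nat.Prime p)] (T0 T1 : ZMod p) (hT : T0 ≠ 0 ∨ T1 ≠ 0) :
    ∃ x0 x1 y0 y1 : ZMod p, x0 * y1 - x1 * y0 ≠ 0 ∧ x0 * T0 + y0 * T1 = 1 ∧
      x1 * T0 + y1 * T1 = 0 := by
  rcases eq_or_ne T0 0 with h | h
  · have h1 : T1 ≠ 0 := by
      rcases hT with h' | h'
      · exact absurd h h'
      · exact h'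
    subst h
    exact ⟨0, 1, 1 / T1, 0, by simpa using h1, by field_simp; ring, by ring⟩
  · refine ⟨1 / T0, - T1, 0, T0, ?_, by field_simp; ring, by ring⟩
    have : 1 / T0 * T0 - - T1 * 0 = 1 := by field_simp; ring
    rw [this]
    exact one_ne_zero

end E3

theorem e3k : E3KStmt := by
  intro p hp B hdep hne
  have main : ∀ α β T0 T1 : ZMod p, Pt α β → (T0 ≠ 0 ∨ T1 ≠ 0) → tr1 B 0 = α * T0 →
      tr1 B 1 = α * T1 → tr2 B 0 = β * T0 → tr2 B 1 = β * T1 →
      ∃ α β a c d e : ZMod p, Pt α β ∧ Eq3c B (T3c α β a c d e) := by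
    intro α β T0 T1 hpt hT h1 h2 h3 h4
    obtain ⟨x0, x1, y0, y1, hdet, e1, e2⟩ := E3.basis T0 T1 hT
    set B' := E3.act x0 x1 y0 y1 B with hB'
    have g1 := E3.tr1_act x0 x1 y0 y1 B hdet
    have g2 := E3.tr2_act x0 x1 y0 y1 B hdet
    rw [← hB', h1, h2] at g1
    rw [← hB', h3, h4] at g2
    refine ⟨α, β, B' 0 0 0, B' 0 1 1, B' 1 0 0, B' 1 1 1, hpt, ?_⟩
    rw [← E3.shape B' α β (by rw [g1.1]; linear_combination α * e1)
      (by rw [g1.2]; linear_combination α * e2) (by rw [g2.1]; linear_combination β * e1)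
      (by rw [g2.2]; linear_combination β * e2)]
    exact E3.eq3c_act _ _ _ _ B hdet
  by_cases h0 : tr1 B 0 = 0 ∧ tr1 B 1 = 0
  · refine main 0 1 (tr2 B 0) (tr2 B 1) (Or.inr ⟨rfl, rfl⟩) ?_ (by rw [h0.1]; ring)
      (by rw [h0.2]; ring) (by ring) (by ring)
    by_contra hcon
    push Not at hcon
    apply hne
    constructor
    · funext i
      fin_cases i
      · exact h0.1
      · exact h0.2
    · funext i
      fin_cases i
      · exact hcon.1
      · exact hcon.2
  · have hT : tr1 B 0 ≠ 0 ∨ tr1 B 1 ≠ 0 := by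
      by_contra hcon
      push Not at hcon
      exact h0 hcon
    rcases eq_or_ne (tr1 B 0) 0 with h | h
    · have h1 : tr1 B 1 ≠ 0 := by
        rcases hT with h' | h'
        · exact absurd h h'
        · exact h'
      refine main 1 (tr2 B 1 / tr1 B 1) (tr1 B 0) (tr1 B 1) (Or.inl rfl) hT (by ring) (by ring) ?_ ?_
      · rw [h] at hdep ⊢
        have : tr2 B 0 = 0 := by
          have e : tr1 B 1 * tr2 B 0 = 0 := by linear_combination -hdep
          rcases mul_eq_zero.mp e with h' | h'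
          · exact absurd h' h1
          · exact h'
        rw [this]
        ring
      · field_simp
    · refine main 1 (tr2 B 0 / tr1 B 0) (tr1 B 0) (tr1 B 1) (Or.inl rfl) hT (by ring) (by ring) ?_ ?_
      · field_simp
      · field_simp
        linear_combination hdep

end Pool.NR
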