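import Pool.Agent.H85.NR.E3Base

set_option linter.unusedVariables false

namespace Pool.NR

namespace E3

lemma two_ne {p : ℕ} [hp : Fact (Nat.Prime p)] (h : p ≠ 2) : (2 : ZMod p) ≠ 0 := by
  intro h2
  have h3 : ((2 : ℕ) : ZMod p) = 0 := by exact_mod_cast h2
  rw [ZMod.natCast_eq_zero_iff] at h3
  exact h ((Nat.prime_dvd_prime_iff_eq hp.out Nat.prime_two).mp h3)

lemma three_ne {p : ℕ} [hp : Fact (Nat.Prime p)] (h : p ≠ 3) : (3 : ZMod p) ≠ 0 := by
  intro h2
  have h3 : ((3 : ℕ) : ZMod p) = 0 := by exact_mod_cast h2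
  rw [ZMod.natCast_eq_zero_iff] at h3
  exact h ((Nat.prime_dvd_prime_iff_eq hp.out Nat.prime_three).mp h3)

/-- facts on `ZMod 2` -/
lemma f2 (a : ZMod 2) : a = 0 ∨ a = 1 := by
  fin_cases a
  · left; rfl
  · right; rfl

end E3

theorem e3l (hKRE : KREStmt) : E3LStmt := by
  intro p hp α β a c d e hpt
  rcases eq_or_ne c 0 with hc | hc
  · subst hc
    rcases eq_or_ne e 0 with he | he
    · subst he
      rcases eq_or_ne (α + β - 3 * a) 0 with hs | hs
      · rcases eq_or_ne d 0 with hd | hd
        · subst hd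
          exact ⟨_, NF3cL.l6 α β a hpt, E3.refl3c _⟩
        · refine ⟨_, NF3cL.l7 α β a hpt (by linear_combination -hs), ?_⟩
          have h := E3.step α β a 0 d 0 0 d hd
          have e1 : (d + 0 * (α + β - 3 * a) + 3 * 0 ^ 2 * 0 - 0 ^ 3 * 0) / d = 1 := by
            field_simp
            ring
          rw [e1] at h
          simpa using h
      · refine ⟨_, NF3cL.l6 α β a hpt, ?_⟩
        have h := E3.step α β a 0 d 0 (-d / (α + β - 3 * a)) 1 one_ne_zero
        have e1 : (d + (-d / (α + β - 3 * a)) * (α + β - 3 * a) +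
            3 * (-d / (α + β - 3 * a)) ^ 2 * 0 - (-d / (α + β - 3 * a)) ^ 3 * 0) / 1 = 0 := by
          field_simp
          ring
        rw [e1] at h
        simpa using h
    · -- make `e = 1`
      have h0 := E3.step α β a 0 d e 0 (1 / e) (one_div_ne_zero he)
      have e0 : 1 / e * (e - 0 * 0) = 1 := by field_simp; ring
      rw [e0] at h0
      have h0' : Eq3c (T3c α β a 0 d e) (T3c α β a 0 (d * e) 1) := by
        have e1 : (d + 0 * (α + β - 3 * a) + 3 * 0 ^ 2 * e - 0 ^ 3 * 0) / (1 / e) = d * e := by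
          field_simp
          ring
        rw [e1] at h0
        simpa using h0
      rcases eq_or_ne p 2 with h2 | h2
      · subst h2
        rcases E3.f2 (a + α + β) with hs | hs
        · have ha : a = α + β := by
            have := CharTwo.add_self_eq_zero (α + β)
            linear_combination hs - this
          refine ⟨_, NF3cL.l4 α β hpt rfl, E3.trans3c h0' ?_⟩
          have h := E3.step α β a 0 (d * e) 1 (d * e) 1 one_ne_zero
          have t2 : (2 : ZMod 2) = 0 := rfl
          have t3 : (3 : ZMod 2) = 1 := rfl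
          have e1 : (d * e + d * e * (α + β - 3 * a) + 3 * (d * e) ^ 2 * 1 - (d * e) ^ 3 * 0) / 1 = 0 := by
            rw [t3, ha]
            rcases E3.f2 (d * e) with hq | hq <;> rw [hq]
            · ring
            · have : (1 : ZMod 2) + 1 = 0 := rfl
              linear_combination this
          have e2 : a - 2 * (d * e) * 1 + (d * e) ^ 2 * 0 = α + β := by
            rw [t2, ha]; ring
          rw [e1, e2] at h
          simpa using h
        · have ha : a = α + β + 1 := by
            have := CharTwo.add_self_eq_zero (α + β)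
            linear_combination hs - this
          rw [ha] at h0'
          rw [ha]
          exact ⟨_, NF3cL.l5 α β (d * e) hpt rfl, h0'⟩
      · have t2 := E3.two_ne h2
        have h := E3.step α β a 0 (d * e) 1 (a / 2) 1 one_ne_zero
        have e2 : a - 2 * (a / 2) * 1 + (a / 2) ^ 2 * 0 = 0 := by field_simp; ring
        rw [e2] at h
        refine ⟨_, NF3cL.l3 α β ((d * e + a / 2 * (α + β - 3 * a) + 3 * (a / 2) ^ 2 * 1 -
          (a / 2) ^ 3 * 0) / 1) hpt h2, E3.trans3c h0' ?_⟩
        simpa using h
  · -- `c ≠ 0`: make `e = 0`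
    have h0 := E3.step α β a c d e (e / c) 1 one_ne_zero
    have e0 : 1 * (e - e / c * c) = 0 := by field_simp; ring
    rw [e0] at h0
    generalize (a - 2 * (e / c) * e + (e / c) ^ 2 * c) = a' at h0
    generalize ((d + e / c * (α + β - 3 * a) + 3 * (e / c) ^ 2 * e - (e / c) ^ 3 * c) / 1) = d' at h0
    have h0' : Eq3c (T3c α β a c d e) (T3c α β a' c d' 0) := by simpa using h0
    rcases eq_or_ne d' 0 with hd | hd
    · subst hd
      obtain ⟨s, t, hs, ht, hst⟩ := hKRE p 2 c hc
      refine ⟨_, NF3cL.l2 α β a' s hpt hs, E3.trans3c h0' ?_⟩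
      have h := E3.step α β a' c 0 0 0 (1 / t) (one_div_ne_zero ht)
      have e1 : (1 / t) ^ 2 * c = s := by rw [hst]; field_simp
      rw [e1] at h
      simpa using h
    · refine ⟨_, NF3cL.l1 α β a' (d' ^ 2 * c) hpt (by positivity), E3.trans3c h0' ?_⟩
      have h := E3.step α β a' c d' 0 0 d' hd
      have e1 : (d' + 0 * (α + β - 3 * a') + 3 * 0 ^ 2 * 0 - 0 ^ 3 * c) / d' = 1 := by
        field_simp
        ring
      rw [e1] at h
      simpa using h

end Pool.NR
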