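import Pool.Agent.H85.NR.E3L

set_option linter.unusedVariables false

namespace Pool.NR

theorem e3r (hKRE : KREStmt) : E3RStmt := by
  intro p hp a d e
  rcases eq_or_ne e 0 with he | he
  · subst he
    rcases eq_or_ne a 0 with ha | ha
    · subst ha
      rcases eq_or_ne d 0 with hd | hd
      · subst hd
        exact ⟨_, NF3cZ.z1 0 (Or.inl rfl), E3.refl3c _⟩
      · refine ⟨_, NF3cZ.z1 1 (Or.inr rfl), ?_⟩
        have h := E3.step 0 0 0 0 d 0 0 d hd
        have e1 : (d + 0 * (0 + 0 - 3 * 0) + 3 * 0 ^ 2 * 0 - 0 ^ 3 * 0) / d = 1 := by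
          field_simp
          ring
        rw [e1] at h
        simpa using h
    · -- `e = 0`, `a ≠ 0`
      have swp : Eq3c (T3c 0 0 a 0 0 0) (T3c 0 0 0 0 0 1) := by
        have h1 := E3.swap a 0 0 0
        have h2 := E3.step 0 0 0 0 0 a 0 (1 / a) (one_div_ne_zero ha)
        have e1 : 1 / a * (a - 0 * 0) = 1 := by field_simp; ring
        rw [e1] at h2
        exact E3.trans3c h1 (by simpa using h2)
      rcases eq_or_ne p 3 with h3 | h3
      · subst h3
        rcases eq_or_ne d 0 with hd | hd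
        · subst hd
          exact ⟨_, NF3cZ.z2, swp⟩
        · refine ⟨_, NF3cZ.z6 rfl, ?_⟩
          have h1 := E3.scale0 a 0 d 0 (1 / a) (one_div_ne_zero ha)
          have h2 := E3.step 0 0 (1 / a * a) (0 / (1 / a)) ((1 / a) ^ 2 * d) 0 0 ((1 / a) ^ 2 * d)
            (mul_ne_zero (pow_ne_zero 2 (one_div_ne_zero ha)) hd)
          have e1 : ((1 / a) ^ 2 * d + 0 * (0 + 0 - 3 * (1 / a * a)) + 3 * 0 ^ 2 * 0 -
              0 ^ 3 * (0 / (1 / a))) / ((1 / a) ^ 2 * d) = 1 := by
            field_simp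
            ring
          have e2 : 1 / a * a = 1 := by field_simp
          rw [e1, e2] at h2
          rw [e2] at h1
          refine E3.trans3c h1 ?_
          simpa using h2
      · have t3 := E3.three_ne h3
        refine ⟨_, NF3cZ.z2, E3.trans3c ?_ swp⟩
        have h := E3.step 0 0 a 0 d 0 (d / (3 * a)) 1 one_ne_zero
        have e1 : (d + d / (3 * a) * (0 + 0 - 3 * a) + 3 * (d / (3 * a)) ^ 2 * 0 -
            (d / (3 * a)) ^ 3 * 0) / 1 = 0 := by
          field_simp
          ring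
        rw [e1] at h
        simpa using h
  · -- make `e = 1`
    have h0 := E3.step 0 0 a 0 d e 0 (1 / e) (one_div_ne_zero he)
    have e0 : 1 / e * (e - 0 * 0) = 1 := by field_simp; ring
    rw [e0] at h0
    have h0' : Eq3c (T3c 0 0 a 0 d e) (T3c 0 0 a 0 (d * e) 1) := by
      have e1 : (d + 0 * (0 + 0 - 3 * a) + 3 * 0 ^ 2 * e - 0 ^ 3 * 0) / (1 / e) = d * e := by
        field_simp
        ring
      rw [e1] at h0
      simpa using h0
    generalize d * e = d' at h0'
    rcases eq_or_ne p 2 with h2 | h2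
    · subst h2
      rcases E3.f2 a with ha | ha
      · subst ha
        refine ⟨_, NF3cZ.z2, E3.trans3c h0' ?_⟩
        have h := E3.step 0 0 0 0 d' 1 d' 1 one_ne_zero
        have t2 : (2 : ZMod 2) = 0 := rfl
        have t3 : (3 : ZMod 2) = 1 := rfl
        have e1 : (d' + d' * (0 + 0 - 3 * 0) + 3 * d' ^ 2 * 1 - d' ^ 3 * 0) / 1 = 0 := by
          rw [t3]
          rcases E3.f2 d' with hq | hq <;> rw [hq]
          · ring
          · have : (1 : ZMod 2) + 1 = 0 := rfl
            linear_combination this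
        have e2 : (0 : ZMod 2) - 2 * d' * 1 + d' ^ 2 * 0 = 0 := by
          rw [t2]; ring
        rw [e1, e2] at h
        simpa using h
      · subst ha
        exact ⟨_, NF3cZ.z4 d' rfl, h0'⟩
    · have t2 := E3.two_ne h2
      have h := E3.step 0 0 a 0 d' 1 (a / 2) 1 one_ne_zero
      have e2 : a - 2 * (a / 2) * 1 + (a / 2) ^ 2 * 0 = 0 := by field_simp; ring
      rw [e2] at h
      generalize (d' + a / 2 * (0 + 0 - 3 * a) + 3 * (a / 2) ^ 2 * 1 - (a / 2) ^ 3 * 0) / 1 = d''
        at h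
      have h' : Eq3c (T3c 0 0 a 0 d' 1) (T3c 0 0 0 0 d'' 1) := by simpa using h
      have h1 := E3.trans3c h0' h'
      rcases eq_or_ne d'' 0 with hd | hd
      · subst hd
        exact ⟨_, NF3cZ.z2, h1⟩
      · obtain ⟨s, t, hs, ht, hst⟩ := hKRE p 2 d'' hd
        refine ⟨_, NF3cZ.z3 s h2 hs, E3.trans3c h1 ?_⟩
        have h3 := E3.scale0 0 0 d'' 1 (1 / t) (one_div_ne_zero ht)
        have e1 : (1 / t) ^ 2 * d'' = s := by rw [hst]; field_simp
        rw [e1] at h3
        simpa using h3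

end Pool.NR
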