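import Pool.Agent.H85.NR.E3Base

set_option linter.unusedVariables false

namespace Pool.NR

theorem e3z : E3ZStmt := by
  intro p hp B h1 h2
  refine ⟨B 0 0 0, B 0 1 1, B 1 0 0, B 1 1 1, ?_⟩
  exact E3.shape B 0 0 (by rw [h1]; rfl) (by rw [h1]; rfl) (by rw [h2]; rfl) (by rw [h2]; rfl)

end Pool.NR
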